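import Mathlib
import Pool.Agent.X190.UH.Witt

/-!
# Injectivity of the Arens–Michael envelope for affine Hopf algebras (MP_f83094_an, Q1)

Negative answer: for the enveloping algebra `H` of the Lie algebra of polynomial vector fields
on the line, a finitely generated Hopf algebra, every submultiplicative seminorm vanishes on the
whole augmentation ideal, which is not zero.
-/

namespace Pool.Agent.Results.MP_f83094_an.Witt

open X190.UH

/-- There is a finitely generated complex Hopf algebra on which all submultiplicative seminorms
vanish on the augmentation ideal, and the augmentation ideal is not zero. -/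
theorem result :
    ∃ (H : Type) (_ : Ring H) (_ : HopfAlgebra ℂ H), Algebra.FiniteType ℂ H ∧
      (∀ p : Seminorm ℂ H, (∀ a b : H, p (a * b) ≤ p a * p b) →
        ∀ a : H, p (a - algebraMap ℂ H (Coalgebra.counit a)) = 0) ∧
      ∃ h : H, h ≠ 0 ∧ Coalgebra.counit (R := ℂ) h = 0 ∧
        ∀ p : Seminorm ℂ H, (∀ a b : H, p (a * b) ≤ p a * p b) → p h = 0 := by
  refine ⟨UW, inferInstance, inferInstance, finiteType, fun p hp a => p_sub_counit p hp a,
    io (E 0), io_E_ne_zero, counitHom_io _, fun p hp => p_io p hp _⟩

end Pool.Agent.Results.MP_f83094_an.Witt
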